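import Pool.Agent.Helper65.RP.Defs2

/-!
# Dynamical Mordell-Lang for curves and regular polynomial maps: the multiplicity of the slice
-/

set_option autoImplicit false

namespace Pool.Agent.Helper47.RP

open MvPolynomial Filter Topology
open Pool.Agent.Helper65.RP

section aux

variable {L : Type} [Field L] {N : ℕ}

theorem sub_C_mem (q : Fin N → L) (p : MvPolynomial (Fin N) L) :
    p - C (eval q p) ∈ ptIdeal q := by
  rw [← Ideal.Quotient.eq]
  have h : (Ideal.Quotient.mk (ptIdeal q)) =
      ((Ideal.Quotient.mk (ptIdeal q)).comp C).comp (eval q) := by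
    apply MvPolynomial.ringHom_ext
    · intro r
      simp
    · intro i
      simp only [RingHom.comp_apply, eval_X]
      rw [Ideal.Quotient.eq]
      exact Ideal.subset_span ⟨i, rfl⟩
  exact congrArg (fun f => f p) h

theorem mem_ptIdeal (q : Fin N → L) (p : MvPolynomial (Fin N) L) :
    p ∈ ptIdeal q ↔ eval q p = 0 := by
  constructor
  · intro h
    have h1 : ptIdeal q ≤ RingHom.ker (eval q) := by
      unfold ptIdeal
      rw [Ideal.span_le]
      rintro _ ⟨i, rfl⟩
      simp [RingHom.mem_ker]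
    exact h1 h
  · intro h
    have := sub_C_mem q p
    rwa [h, C_0, sub_zero] at this

theorem finite_quot (q : Fin N → L) (n : ℕ) (J : Ideal (MvPolynomial (Fin N) L)) :
    FiniteDimensional L (MvPolynomial (Fin N) L ⧸ (J ⊔ ptIdeal q ^ n)) := by
  set I := J ⊔ ptIdeal q ^ n with hI
  have hx : ∀ i, IsIntegral L (Ideal.Quotient.mkₐ L I (X i)) := by
    intro i
    refine ⟨(Polynomial.X - Polynomial.C (q i)) ^ n, (Polynomial.monic_X_sub_C _).pow n, ?_⟩
    have h0 : (X i - C (q i)) ∈ ptIdeal q := Ideal.subset_span ⟨i, rfl⟩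
    have h1 : (X i - C (q i)) ^ n ∈ I :=
      Ideal.mem_sup_right (Ideal.pow_mem_pow h0 n)
    have h2 : Ideal.Quotient.mkₐ L I ((X i - C (q i)) ^ n) = 0 := by
      rw [Ideal.Quotient.mkₐ_eq_mk]
      exact Ideal.Quotient.eq_zero_iff_mem.2 h1
    rw [map_pow, map_sub] at h2
    rw [Polynomial.eval₂_pow, Polynomial.eval₂_sub, Polynomial.eval₂_X, Polynomial.eval₂_C]
    exact h2
  have hint : Algebra.IsIntegral L (MvPolynomial (Fin N) L ⧸ I) := by
    constructor
    intro a
    obtain ⟨p, rfl⟩ := Ideal.Quotient.mkₐ_surjective L I a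
    induction p using MvPolynomial.induction_on with
    | C r => exact isIntegral_algebraMap (R := L) (x := r)
    | add p p' hp hp' =>
      rw [map_add]
      exact hp.add hp'
    | mul_X p i hp =>
      rw [map_mul]
      exact hp.mul (hx i)
  exact Algebra.IsIntegral.finite

theorem aeval_mul_hom {K A : Type} [Field K] [CommRing A] [Algebra K A] {e : ℕ}
    {P : MvPolynomial (Fin N) K} (hP : P.IsHomogeneous e) (u : A) (y : Fin N → A) :
    aeval (fun i => u * y i) P = u ^ e * aeval y P := by
  rw [MvPolynomial.aeval_def, MvPolynomial.aeval_def, MvPolynomial.eval₂_eq', MvPolynomial.eval₂_eq',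
    Finset.mul_sum]
  refine Finset.sum_congr rfl fun d hd => ?_
  have hd' : ∑ i, d i = e := by
    have h := hP (mem_support_iff.1 hd)
    rw [← h, Finsupp.weight_apply, Finsupp.sum_fintype _ _ (by simp)]
    simp
  simp_rw [mul_pow]
  rw [Finset.prod_mul_distrib, Finset.prod_pow_eq_pow_sum, hd']
  ring

attribute [local instance] algebraMvPolynomial in
theorem finrank_map {Kb : Type} [Field Kb] [Algebra L Kb] (I : Ideal (MvPolynomial (Fin N) L)) :
    Module.finrank Kb (MvPolynomial (Fin N) Kb ⧸ I.map (MvPolynomial.map (algebraMap L Kb))) =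
      Module.finrank L (MvPolynomial (Fin N) L ⧸ I) := by
  have e1 := I.qoutMapEquivTensorQout (MvPolynomial (Fin N) Kb)
  have e2 := Algebra.IsPushout.cancelBaseChange L Kb (MvPolynomial (Fin N) L)
    (MvPolynomial (Fin N) Kb) (MvPolynomial (Fin N) L ⧸ I)
  have e3 := (e1.restrictScalars Kb).trans e2
  rw [← Module.finrank_baseChange (R := Kb) (S := L) (M' := MvPolynomial (Fin N) L ⧸ I)]
  exact e3.finrank_eq

end aux

/-- N0 -/
theorem mult_slice {K L Kb : Type} [Field K] [CharZero K] [Field L] [Field Kb] [Algebra K L]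
    [Algebra K Kb] [Algebra L Kb] [IsScalarTower K L Kb] {N e : ℕ} (he : 1 ≤ e)
    (H : Fin N → MvPolynomial (Fin N) K) (hH : ∀ i, (H i).IsHomogeneous e) (q : Fin N → L)
    (i₀ : Fin N) (hq : q i₀ = 1) {c : L} (hc : c ≠ 0) (hfix : ∀ i, aeval q (H i) = c * q i)
    (hmult : MultLT H (fun i => algebraMap L Kb (q i)) e) (n : ℕ) :
    Module.finrank L (MvPolynomial (Fin N) L ⧸ (sliceIdeal H q i₀ ⊔ ptIdeal q ^ n)) < e := by
  rcases Nat.eq_zero_or_pos n with rfl | hn
  · have : Subsingleton (MvPolynomial (Fin N) L ⧸ (sliceIdeal H q i₀ ⊔ ptIdeal q ^ 0)) := by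
      rw [Ideal.Quotient.subsingleton_iff]
      simp
    rw [Module.finrank_zero_of_subsingleton]
    omega
  have : CharZero L := charZero_of_injective_algebraMap (algebraMap K L).injective
  set I := sliceIdeal H q i₀ ⊔ ptIdeal q ^ n with hI
  set A := MvPolynomial (Fin N) L ⧸ I with hA
  set mk : MvPolynomial (Fin N) L →ₐ[L] A := Ideal.Quotient.mkₐ L I with hmk
  have hmk0 : ∀ p, mk p = 0 ↔ p ∈ I := fun p => Ideal.Quotient.eq_zero_iff_mem
  have hIle : I ≤ ptIdeal q := by
    rw [hI]
    refine sup_le ?_ (Ideal.pow_le_self hn.ne')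
    unfold sliceIdeal
    rw [Ideal.span_le]
    rintro _ (rfl | ⟨i, rfl⟩)
    · rw [SetLike.mem_coe, mem_ptIdeal]
      simp [hq]
    · rw [SetLike.mem_coe, mem_ptIdeal, map_sub, map_mul, eval_C, eval_map, eval_map,
        ← aeval_def, ← aeval_def, hfix, hfix, hq]
      ring
  set y : Fin N → A := fun i => mk (X i) with hy
  have hy0 : y i₀ = 1 := by
    have : mk (X i₀ - 1) = 0 := by
      rw [hmk0]
      exact Ideal.mem_sup_left (Ideal.subset_span (Set.mem_insert _ _))
    rw [map_sub, map_one, sub_eq_zero] at this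
    exact this
  have hpow : ∀ p, p ∈ ptIdeal q → mk p ^ n = 0 := by
    intro p hp
    rw [← map_pow, hmk0]
    exact Ideal.mem_sup_right (Ideal.pow_mem_pow hp n)
  have hmkmap : ∀ P : MvPolynomial (Fin N) K, mk (MvPolynomial.map (algebraMap K L) P) = aeval y P := by
    intro P
    have h1 : mk = aeval y := by
      apply MvPolynomial.algHom_ext
      intro i
      rw [aeval_X]
    rw [h1, MvPolynomial.aeval_map_algebraMap]
  set h : A := aeval y (H i₀) with hh
  have hHi : ∀ i, aeval y (H i) = algebraMap L A (q i) * h := by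
    intro i
    have h1 : mk (MvPolynomial.map (algebraMap K L) (H i) -
        C (q i) * MvPolynomial.map (algebraMap K L) (H i₀)) = 0 := by
      rw [hmk0]
      exact Ideal.mem_sup_left (Ideal.subset_span (Set.mem_insert_of_mem _ ⟨i, rfl⟩))
    rw [map_sub, map_mul, hmkmap, hmkmap, sub_eq_zero] at h1
    exact h1
  have hhc : IsNilpotent (h - algebraMap L A c) := by
    refine ⟨n, ?_⟩
    have h1 := hpow (MvPolynomial.map (algebraMap K L) (H i₀) - C c) (by
      rw [mem_ptIdeal, map_sub, eval_C, eval_map, ← aeval_def, hfix, hq]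
      ring)
    rw [map_sub, hmkmap] at h1
    exact h1
  have hcu : IsUnit (algebraMap L A c) := (IsUnit.mk0 c hc).map (algebraMap L A)
  have hhu : IsUnit h := by
    have := hhc.isUnit_add_left_of_commute hcu (Commute.all _ _)
    rwa [add_sub_cancel] at this
  obtain ⟨g, hg⟩ : ∃ g : A, g * h = algebraMap L A c := by
    obtain ⟨h', hh'⟩ := hhu.exists_left_inv
    exact ⟨algebraMap L A c * h', by rw [mul_assoc, hh', mul_one]⟩
  have hg1 : IsNilpotent (1 - g) := by
    obtain ⟨h', hh'⟩ := hhu.exists_left_inv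
    have h1 : 1 - g = (h - algebraMap L A c) * h' := by
      rw [← hg]
      linear_combination (g - 1) * hh'
    rw [h1]
    exact (Commute.all _ _).isNilpotent_mul_right hhc
  have heu : IsUnit ((e : ℕ) : A) := by
    have h1 : ((e : ℕ) : L) ≠ 0 := by
      exact_mod_cast (by omega : e ≠ 0)
    have h2 := (IsUnit.mk0 _ h1).map (algebraMap L A)
    rwa [map_natCast] at h2
  obtain ⟨r, ⟨hr1, hr2⟩, -⟩ := Polynomial.existsUnique_nilpotent_sub_and_aeval_eq_zero
    (R := A) (S := A) (P := Polynomial.X ^ e - Polynomial.C g) (x := 1)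
    (by simpa using hg1)
    (by
      rw [Polynomial.derivative_sub, Polynomial.derivative_C, sub_zero, Polynomial.derivative_X_pow,
        map_mul, Polynomial.aeval_C, map_pow, Polynomial.aeval_X, one_pow, mul_one]
      exact heu)
  have hr : r ^ e = g := by
    rw [map_sub, map_pow, Polynomial.aeval_X, Polynomial.aeval_C, sub_eq_zero] at hr2
    exact hr2
  obtain ⟨R, hR⟩ : ∃ R, mk R = r := Ideal.Quotient.mkₐ_surjective L I r
  have hR1 : 1 - R ∈ ptIdeal q := by
    obtain ⟨k, hk⟩ := hr1
    have h1 : mk ((1 - R) ^ k) = 0 := by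
      rw [map_pow, map_sub, map_one, hR, hk]
    rw [hmk0] at h1
    have h2 := (mem_ptIdeal q _).1 (hIle h1)
    rw [map_pow] at h2
    rw [mem_ptIdeal]
    exact eq_zero_of_pow_eq_zero h2
  set θ : MvPolynomial (Fin N) L →ₐ[L] A := aeval (fun i => r * y i) with hθ
  have hθH : ∀ i, θ (MvPolynomial.map (algebraMap K L) (H i) - C (c * q i)) = 0 := by
    intro i
    rw [map_sub, hθ, MvPolynomial.aeval_map_algebraMap, aeval_mul_hom (hH i), hr, hHi, aeval_C,
      map_mul, ← hg]
    ring
  set J : Ideal (MvPolynomial (Fin N) L) :=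
    Ideal.span (Set.range fun i => MvPolynomial.map (algebraMap K L) (H i) - C (c * q i)) ⊔
      ptIdeal q ^ n with hJ
  have hθm : (ptIdeal q).map θ.toRingHom ≤ (ptIdeal q).map mk.toRingHom := by
    conv_lhs => unfold ptIdeal
    rw [Ideal.map_span, Ideal.span_le]
    rintro _ ⟨_, ⟨i, rfl⟩, rfl⟩
    have h1 : θ.toRingHom (X i - C (q i)) =
        mk.toRingHom (X i - C (q i)) - mk.toRingHom (X i) * mk.toRingHom (1 - R) := by
      change θ (X i - C (q i)) = mk (X i - C (q i)) - mk (X i) * mk (1 - R)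
      rw [map_sub, map_sub, map_sub mk 1 R, hR, hθ, aeval_X, aeval_C, map_one]
      change r * mk (X i) - algebraMap L A (q i) = mk (X i) - algebraMap L A (q i) -
        mk (X i) * (1 - r)
      ring
    show θ.toRingHom (X i - C (q i)) ∈ _
    rw [h1]
    exact sub_mem (Ideal.mem_map_of_mem _ (Ideal.subset_span ⟨i, rfl⟩))
      (Ideal.mul_mem_left _ _ (Ideal.mem_map_of_mem _ hR1))
  have hθJ : J ≤ RingHom.ker θ.toRingHom := by
    rw [hJ]
    refine sup_le ?_ ?_
    · rw [Ideal.span_le]
      rintro _ ⟨i, rfl⟩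
      exact hθH i
    · rw [RingHom.ker_eq_comap_bot, ← Ideal.map_le_iff_le_comap, Ideal.map_pow]
      refine (Ideal.pow_right_mono hθm n).trans ?_
      rw [← Ideal.map_pow, Ideal.map_le_iff_le_comap, ← RingHom.ker_eq_comap_bot]
      intro p hp
      exact (hmk0 p).2 (Ideal.mem_sup_right hp)
  have hθsurj : Function.Surjective θ := by
    obtain ⟨k, hk⟩ := hr1
    have hr0 : r ∈ θ.range := ⟨X i₀, by
      change θ (X i₀) = r
      rw [hθ, aeval_X, hy0, mul_one]⟩
    have hinv : ∃ s ∈ θ.range, s * r = 1 := by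
      refine ⟨∑ j ∈ Finset.range k, (1 - r) ^ j, ?_, ?_⟩
      · exact sum_mem fun j _ => pow_mem (sub_mem (one_mem _) hr0) j
      · have h1 := geom_sum_mul_neg (1 - r) k
        rwa [hk, sub_sub_cancel, sub_zero] at h1
    obtain ⟨s, hs, hsr⟩ := hinv
    have hyi : ∀ i, y i ∈ θ.range := by
      intro i
      have h1 : y i = s * (r * y i) := by
        rw [← mul_assoc, hsr, one_mul]
      rw [h1]
      refine mul_mem hs ⟨X i, ?_⟩
      change θ (X i) = r * y i
      rw [hθ, aeval_X]
    intro a
    obtain ⟨p, rfl⟩ : ∃ p, mk p = a := Ideal.Quotient.mkₐ_surjective L I a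
    suffices h1 : mk p ∈ θ.range by
      obtain ⟨p', hp'⟩ := h1
      exact ⟨p', hp'⟩
    induction p using MvPolynomial.induction_on with
    | C t => exact θ.range.algebraMap_mem t
    | add p p' hp hp' =>
      rw [map_add]
      exact add_mem hp hp'
    | mul_X p i hp =>
      rw [map_mul]
      exact mul_mem hp (hyi i)
  have hfin : FiniteDimensional L (MvPolynomial (Fin N) L ⧸ J) := finite_quot q n _
  have hΘ : Function.Surjective (Ideal.Quotient.liftₐ J θ (fun a ha => hθJ ha)) :=
    Ideal.Quotient.lift_surjective_of_surjective _ _ hθsurj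
  have hle : Module.finrank L A ≤ Module.finrank L (MvPolynomial (Fin N) L ⧸ J) :=
    LinearMap.finrank_le_finrank_of_surjective
      (f := (Ideal.Quotient.liftₐ J θ (fun a ha => hθJ ha)).toLinearMap) hΘ
  refine hle.trans_lt ?_
  rw [← finrank_map (Kb := Kb) J]
  have hJmap : J.map (MvPolynomial.map (algebraMap L Kb)) =
      fibreIdeal H (fun i => algebraMap L Kb (q i)) ⊔
        ptIdeal (fun i => algebraMap L Kb (q i)) ^ n := by
    rw [hJ, Ideal.map_sup, Ideal.map_pow]
    congr 1
    · unfold fibreIdeal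
      rw [Ideal.map_span, ← Set.range_comp]
      congr 2
      funext i
      simp only [Function.comp_apply]
      have h1 : aeval (fun i => algebraMap L Kb (q i)) (H i) = algebraMap L Kb (c * q i) := by
        rw [← hfix, ← MvPolynomial.aeval_algebraMap_apply]
        rfl
      rw [map_sub, map_C, MvPolynomial.map_map, ← IsScalarTower.algebraMap_eq K L Kb, h1]
    · unfold ptIdeal
      rw [Ideal.map_span, ← Set.range_comp]
      congr 3
      funext i
      simp only [Function.comp_apply]
      rw [map_sub, map_C, map_X]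
  rw [hJmap]
  exact hmult n

end Pool.Agent.Helper47.RP
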